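import Pool.Agent.K4H18.BEI.Example

/-!
# Depth of binomial edge ideals of graphs glued at one vertex

We disprove the identity `d(G) + 4 = d(G₁ with a whisker) + d(G₂ with a whisker)` for graphs glued at
one vertex under the two cutset conditions, over every field.
-/

set_option autoImplicit false

namespace Pool.Agent.Results.MP_ada9af_al.GluingDepthFails

open RingTheory.Sequence

universe u

/-- The binomial edge ideal `J_H` of a graph `H` on the vertex set `W`, in the polynomial ring
`K[x_w, y_w | w ∈ W]`, where `x_w = X (inl w)` and `y_w = X (inr w)`. -/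
noncomputable def binomialEdgeIdeal (K : Type u) [Field K] {W : Type} (H : SimpleGraph W) :
    Ideal (MvPolynomial (W ⊕ W) K) :=
  Ideal.span {f | ∃ i j, H.Adj i j ∧ f = MvPolynomial.X (Sum.inl i) * MvPolynomial.X (Sum.inr j) -
    MvPolynomial.X (Sum.inl j) * MvPolynomial.X (Sum.inr i)}

/-- The irrelevant ideal of `K[x_w, y_w | w ∈ W]`, generated by all the variables. -/
noncomputable def irrelevantIdeal (K : Type u) [Field K] (W : Type) :
    Ideal (MvPolynomial (W ⊕ W) K) :=
  Ideal.span (Set.range MvPolynomial.X)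

/-- `d(H)`: the depth of `K[x_w, y_w | w ∈ W] / J_H`, that is, the supremum of the lengths of the
regular sequences on this module with entries in the irrelevant ideal. -/
noncomputable def depth (K : Type u) [Field K] {W : Type} (H : SimpleGraph W) : ℕ∞ :=
  ⨆ (rs : List (MvPolynomial (W ⊕ W) K)) (_ : ∀ r ∈ rs, r ∈ irrelevantIdeal K W)
    (_ : IsRegular (MvPolynomial (W ⊕ W) K ⧸ binomialEdgeIdeal K H) rs), (rs.length : ℕ∞)

/-- The graph `H` with a whisker at `v`: a new vertex `none` and the edge from it to `v`. -/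
def whisker {W : Type} (H : SimpleGraph W) (v : W) : SimpleGraph (Option W) where
  Adj
    | some a, some b => H.Adj a b
    | some a, none => a = v
    | none, some b => b = v
    | none, none => False
  symm := ⟨by
    rintro (_ | a) (_ | b) h
    · exact h
    · exact h
    · exact h
    · exact SimpleGraph.Adj.symm (G := H) h⟩
  loopless := ⟨by
    rintro (_ | a) h
    · exact h
    · exact H.loopless.irrefl a h⟩

/-- The number of connected components of a subgraph. -/
noncomputable def components {V : Type} {G : SimpleGraph V} (H : G.Subgraph) : ℕ :=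
  Nat.card H.coe.ConnectedComponent

/-- `u` is a cut vertex of `H`: deleting it increases the number of connected components. -/
def IsCutVertex {V : Type} {G : SimpleGraph V} (H : G.Subgraph) (u : V) : Prop :=
  u ∈ H.verts ∧ components H < components (H.deleteVerts {u})

/-- `T` is a cutset of `H`: each `t ∈ T` is a cut vertex of `H ∖ (T ∖ {t})`. -/
def IsCutset {V : Type} {G : SimpleGraph V} (H : G.Subgraph) (T : Set V) : Prop :=
  T ⊆ H.verts ∧ ∀ t ∈ T, IsCutVertex (H.deleteVerts (T \ {t})) t

/-- `u` is free in `H`: its neighbours in `H` are pairwise adjacent in `H`. -/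
def IsFree {V : Type} {G : SimpleGraph V} (H : G.Subgraph) (u : V) : Prop :=
  ∀ a b, H.Adj u a → H.Adj u b → a ≠ b → H.Adj a b

lemma not_isCutset {V : Type} {G : SimpleGraph V} (H : G.Subgraph) (v : V) (a : V)
    (ha : a ∈ H.neighborSet v) (h : ∀ x ∈ H.verts, x ≠ v → x ∈ H.neighborSet v) (T : Set V)
    (hT : IsCutset (H.deleteVerts {v}) T) : ¬ H.neighborSet v ⊆ T := by
  intro hsub
  obtain ⟨h1, h2⟩ := hT
  obtain ⟨h3, h4⟩ := h2 a (hsub ha)
  have hempty : IsEmpty (((H.deleteVerts {v}).deleteVerts (T \ {a})).deleteVerts {a}).verts := by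
    constructor
    rintro ⟨x, hx⟩
    simp only [SimpleGraph.Subgraph.deleteVerts_verts, Set.mem_sdiff, Set.mem_singleton_iff] at hx
    obtain ⟨⟨⟨hx1, hx2⟩, hx3⟩, hx4⟩ := hx
    exact hx3 ⟨hsub (h x hx1 hx2), hx4⟩
  have h5 : components (((H.deleteVerts {v}).deleteVerts (T \ {a})).deleteVerts {a}) = 0 := by
    unfold components
    have : IsEmpty (((H.deleteVerts {v}).deleteVerts
        (T \ {a})).deleteVerts {a}).coe.ConnectedComponent := by
      constructor
      intro c
      induction c using SimpleGraph.ConnectedComponent.ind with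
      | h w => exact hempty.false w
    exact Nat.card_of_isEmpty
  rw [h5] at h4
  exact absurd h4 (Nat.not_lt_zero _)

open Pool.Agent.K4H18.BEI in
/-- **Negative answer to Q1, over every field.** For every field `K` there is a connected graph `G`
on seven vertices which is the union of two subgraphs `G₁`, `G₂` sharing exactly one vertex `v`, such
that conditions (i) and (ii) hold, but `d(G) + 4` is strictly larger than the sum of the depths
for `G₁` and `G₂` with whiskers at `v`. -/
theorem result (K : Type u) [Field K] :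
    ∃ (G : SimpleGraph (Fin 7)) (G₁ G₂ : G.Subgraph) (v : Fin 7) (h₁ : v ∈ G₁.verts)
      (h₂ : v ∈ G₂.verts),
      G.Connected ∧ G₁ ⊔ G₂ = ⊤ ∧ G₁.verts ∩ G₂.verts = {v} ∧
      (∀ T : Set (Fin 7), IsCutset (G₁.deleteVerts {v}) T → G₁.neighborSet v ⊆ T → IsFree G₂ v) ∧
      (∀ T : Set (Fin 7), IsCutset (G₂.deleteVerts {v}) T → G₂.neighborSet v ⊆ T → IsFree G₁ v) ∧
      depth K (whisker G₁.coe ⟨v, h₁⟩) + depth K (whisker G₂.coe ⟨v, h₂⟩) < depth K G + 4 := by
  have h₁ : (0 : Fin 7) ∈ GA.verts := Nat.zero_le 4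
  have h₂ : (0 : Fin 7) ∈ GB.verts := Or.inl rfl
  refine ⟨GG, GA, GB, 0, h₁, h₂, ?_, ?_, ?_, ?_, ?_, ?_⟩
  · rw [SimpleGraph.connected_iff_exists_forall_reachable]
    refine ⟨0, fun w => ?_⟩
    by_cases hw : w = 0
    · rw [hw]
    · apply SimpleGraph.Adj.reachable
      revert w
      decide
  · apply SimpleGraph.Subgraph.ext
    · ext x
      simp only [SimpleGraph.Subgraph.verts_sup, SimpleGraph.Subgraph.verts_top, Set.mem_univ,
        iff_true]
      change x.val ≤ 4 ∨ (x.val = 0 ∨ 5 ≤ x.val)
      omega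
    · funext x y
      apply propext
      change ((GG.Adj x y ∧ x.val ≤ 4 ∧ y.val ≤ 4) ∨
        (GG.Adj x y ∧ (x.val = 0 ∨ 5 ≤ x.val) ∧ (y.val = 0 ∨ 5 ≤ y.val))) ↔ GG.Adj x y
      revert x y
      decide
  · ext x
    change (x.val ≤ 4 ∧ (x.val = 0 ∨ 5 ≤ x.val)) ↔ x = 0
    revert x
    decide
  · intro T hT hsub
    refine absurd hsub (not_isCutset GA 0 1 ?_ ?_ T hT)
    · change GG.Adj 0 1 ∧ (0 : Fin 7).val ≤ 4 ∧ (1 : Fin 7).val ≤ 4
      decide
    · intro x hx hx0
      change GG.Adj 0 x ∧ (0 : Fin 7).val ≤ 4 ∧ x.val ≤ 4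
      have hx' : x.val ≤ 4 := hx
      clear hx
      revert x
      decide
  · intro T hT hsub
    refine absurd hsub (not_isCutset GB 0 5 ?_ ?_ T hT)
    · change GG.Adj 0 5 ∧ ((0 : Fin 7).val = 0 ∨ 5 ≤ (0 : Fin 7).val) ∧
        ((5 : Fin 7).val = 0 ∨ 5 ≤ (5 : Fin 7).val)
      decide
    · intro x hx hx0
      change GG.Adj 0 x ∧ ((0 : Fin 7).val = 0 ∨ 5 ≤ (0 : Fin 7).val) ∧ (x.val = 0 ∨ 5 ≤ x.val)
      have hx' : x.val = 0 ∨ 5 ≤ x.val := hx
      clear hx
      revert x
      decide
  · have hw : ∀ {W : Type} (H : SimpleGraph W) (v : W), whisker H v = whisk H v := by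
      intro W H v
      ext a b
      rcases a with _ | a <;> rcases b with _ | b <;> exact Iff.rfl
    have hA : depth K (whisker GA.coe ⟨0, h₁⟩) ≤ 6 := by
      rw [hw]
      refine iSup_le fun rs => iSup_le fun hmem => iSup_le fun hreg => ?_
      have := upper_GA K h₁ rs hmem hreg.toIsWeaklyRegular
      exact_mod_cast this
    have hB : depth K (whisker GB.coe ⟨0, h₂⟩) ≤ 5 := by
      rw [hw]
      refine iSup_le fun rs => iSup_le fun hmem => iSup_le fun hreg => ?_
      have := upper_GB K h₂ rs hmem hreg.toIsWeaklyRegular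
      exact_mod_cast this
    have hG : 8 ≤ depth K GG := by
      obtain ⟨rs, hlen, hmem, hreg⟩ := lower K
      have h1 : (rs.length : ℕ∞) ≤ depth K GG :=
        le_iSup_of_le rs (le_iSup_of_le hmem (le_iSup_of_le hreg le_rfl))
      rw [hlen] at h1
      exact h1
    calc depth K (whisker GA.coe ⟨0, h₁⟩) + depth K (whisker GB.coe ⟨0, h₂⟩)
        ≤ 6 + 5 := add_le_add hA hB
      _ < 8 + 4 := by norm_num
      _ ≤ depth K GG + 4 := add_le_add hG le_rfl

end Pool.Agent.Results.MP_ada9af_al.GluingDepthFails
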